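import Mathlib
import Pool.Agent.Helper3.FewP.Goals

set_option autoImplicit false

namespace Pool.Agent.Helper57.FewP.CTA

open Pool.Agent.Helper3.FewP

/-- the strip in terms of `c = j - P n`. -/
lemma strip_bd {k P N' : ℕ} (hP : 1 ≤ P) {x : ℤ × ℤ} (h : Strip k P (P * N') 0 x) :
    2 * (x.1 - P * x.2) < N' ∧ -((k : ℤ) * P) < x.1 - P * x.2 := by
  obtain ⟨h1, h2, h3, h4⟩ := h
  have hd : DD P x.1 x.2 = x.1 - 2 * P * (x.1 - P * x.2) := by
    unfold DD
    ring
  rw [hd] at h3 h4
  have hP' : (0 : ℤ) < P := by exact_mod_cast hP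
  generalize hc : x.1 - (P : ℤ) * x.2 = c at *
  push_cast at h2
  constructor
  · have h5 : (P : ℤ) * (2 * c) < P * N' := by
      calc (P : ℤ) * (2 * c) = 2 * P * c := by ring
        _ ≤ x.1 := by linarith
        _ < P * N' := h2
    exact lt_of_mul_lt_mul_left h5 hP'.le
  · have h5 : (2 * P : ℤ) * 0 < (2 * P) * (c + k * P) := by
      calc (2 * P : ℤ) * 0 = 0 := by ring
        _ ≤ x.1 := h1
        _ < 2 * (P : ℤ) ^ 2 * (0 + k) + 2 * P * c := by linarith
        _ = (2 * P) * (c + k * P) := by ring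
    have h6 : (0 : ℤ) < c + k * P := lt_of_mul_lt_mul_left h5 (by positivity)
    linarith

theorem t (hL : G_LIN) : G_CTA := by
  intro k P s S hk hP hS
  have hb : ∀ x ∈ S, 2 * (x.1 - P * x.2) < 2 * ((k : ℤ) * P) + 2 * s + 1 ∧
      -((k : ℤ) * P) < x.1 - P * x.2 := by
    intro x hx
    have h := strip_bd hP (hS x hx)
    push_cast at h
    constructor
    · have := h.1
      linarith
    · exact h.2
  have hK : 1 ≤ (k : ℤ) * P := by exact_mod_cast Nat.mul_pos hk hP
  have hm : ((2 * k * P + s : ℕ) : ℤ) = 2 * ((k : ℤ) * P) + s := by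
    push_cast
    ring
  refine ⟨?_, ?_, ?_⟩
  · intro x hx
    obtain ⟨h1, h2⟩ := hb x hx
    generalize x.1 - (P : ℤ) * x.2 = c at *
    generalize (k : ℤ) * P = K at *
    generalize 2 * k * P + s = m at *
    unfold idxA
    split_ifs <;> omega
  · intro x hx y hy
    generalize x.1 - (P : ℤ) * x.2 = c at *
    generalize y.1 - (P : ℤ) * y.2 = d at *
    unfold idxA
    split_ifs <;> omega
  · intro x hx
    obtain ⟨h1, h2⟩ := hb x hx
    have hi : idxA s (x.1 - P * x.2) ≤ 2 * k * P + s := by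
      generalize x.1 - (P : ℤ) * x.2 = c at *
      generalize (k : ℤ) * P = K at *
      generalize 2 * k * P + s = m at *
      unfold idxA
      split_ifs <;> omega
    have h := hL k P (2 * k * P + 2 * s + 1) (2 * k * P + s - idxA s (x.1 - P * x.2))
      (x.1 - P * x.2) (S.filter fun y => y.1 - P * y.2 = x.1 - P * x.2) hP
      (fun y hy => ⟨hS y (Finset.mem_filter.1 hy).1, (Finset.mem_filter.1 hy).2⟩) (by
        have hN : ((2 * k * P + 2 * s + 1 : ℕ) : ℤ) = 2 * ((k : ℤ) * P) + 2 * s + 1 := by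
          push_cast
          ring
        have h2P : 2 * (P : ℤ) * k = 2 * ((k : ℤ) * P) := by ring
        rw [hN, h2P]
        generalize x.1 - (P : ℤ) * x.2 = c at *
        generalize (k : ℤ) * P = K at *
        generalize 2 * k * P + s = m at *
        unfold idxA at hi ⊢
        split_ifs at hi ⊢ <;> omega)
    omega

end Pool.Agent.Helper57.FewP.CTA
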