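import Mathlib
import Pool.Agent.Helper3.FewP.Goals3

set_option autoImplicit false

namespace Pool.Agent.Helper57.FewP.FM1

open Pool.Agent.Helper3.FewP

/-- a constant factor. -/
lemma sent_mul (k r : ℕ) (h : ℤ → ℤ → ℂ) (b : ℂ) :
    sent k r (fun s n => b * h s n) = PowerSeries.C b * sent k r h := by
  ext e
  rw [PowerSeries.coeff_C_mul]
  unfold sent
  rw [PowerSeries.coeff_mk, PowerSeries.coeff_mk, Finset.mul_sum]
  refine Finset.sum_congr rfl fun s _ => ?_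
  rw [mul_ite, mul_zero]

theorem t : G_FM1 := by
  intro k N m t x c y
  unfold fam vv thz
  have hj : ((c.1 : ℕ) : EE) ^ (y.1.2 : ℕ) =
      HahnSeries.ofPowerSeries ℤ ℂ (PowerSeries.C (((c.1 : ℕ) : ℂ) ^ (y.1.2 : ℕ))) := by
    rw [map_pow, map_pow, map_natCast, map_natCast]
  rw [hj, ← map_mul, ← sent_mul]
  congr 2
  funext s n
  have h1 : (((t⁻¹ ^ (-(((c.1 : ℕ) : ℤ) * s)) * ∏ i : Unit, x ^ (w1 () ((c.1 : ℕ) : ℤ) n i)
      : ℂˣ)) : ℂ) = (1 * (t : ℂ) ^ ((c.1 : ℕ))) ^ s * (x : ℂ) ^ n := by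
    rw [Fintype.prod_unique, one_mul, inv_zpow, zpow_neg, inv_inv, zpow_mul]
    simp only [w1, Units.val_mul, Units.val_zpow_eq_zpow_val, zpow_natCast, Units.val_pow_eq_pow_val]
  rw [h1]
  simp only [id]
  push_cast
  ring

end Pool.Agent.Helper57.FewP.FM1
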