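import Mathlib
import Pool.Agent.Helper3.FewP.Goals3

set_option autoImplicit false

namespace Pool.Agent.Helper57.FewP.SZ

open Pool.Agent.Helper3.FewP

theorem t : G_SZ := by
  intro k P r j hk hP
  have hP' : (0 : ℤ) < 2 * (P : ℤ) ^ 2 := by
    have : (0 : ℤ) < P := by exact_mod_cast hP
    positivity
  have hk' : (0 : ℤ) < k := by exact_mod_cast hk
  obtain ⟨q, hq⟩ : ∃ q : ℤ, q = 2 * (P : ℤ) ^ 2 := ⟨_, rfl⟩
  rw [← hq] at hP'
  have hD : ∀ s : ℤ, DD P j (r + k * s) = (q * r - (2 * P - 1) * j) + q * k * s := by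
    intro s
    rw [hq]
    unfold DD
    ring
  generalize q * r - (2 * (P : ℤ) - 1) * j = A at hD
  have hM : 0 < q * k := mul_pos hP' hk'
  have hE : A + q * k * (-(A / (q * k))) = A % (q * k) := by
    have := Int.emod_add_mul_ediv A (q * k)
    linarith
  have hE0 : 0 ≤ A % (q * k) := Int.emod_nonneg _ hM.ne'
  have hE1 : A % (q * k) < q * k := Int.emod_lt_of_pos _ hM
  have hi0 : 0 ≤ A % (q * k) / q := Int.ediv_nonneg hE0 hP'.le
  have hi1 : A % (q * k) / q < k := Int.ediv_lt_of_lt_mul hP' (by linarith [mul_comm q (k : ℤ)])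
  obtain ⟨i, hi⟩ := Int.eq_ofNat_of_zero_le hi0
  have hik : i < k := by
    rw [hi] at hi1
    exact_mod_cast hi1
  refine ⟨-(A / (q * k)), ⟨i, hik⟩, ?_, ?_⟩
  · rw [hD, hE, ← hq]
    change q * (i : ℤ) ≤ _
    have h := Int.mul_ediv_self_le (x := A % (q * k)) hP'.ne'
    rw [hi] at h
    exact h
  · rw [hD, hE, ← hq]
    change _ < q * ((i : ℤ) + 1)
    have h := Int.lt_mul_ediv_self_add (x := A % (q * k)) hP'
    rw [hi] at h
    calc _ < q * (i : ℤ) + q := h
      _ = q * ((i : ℤ) + 1) := by ring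

end Pool.Agent.Helper57.FewP.SZ
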